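import Pool.Agent.W323.SC.Stm

set_option autoImplicit false
open Finset
open scoped Classical

namespace Pool.Agent.W693.SC

open Pool.Agent.W323.SC

theorem w_union {α : Type} (z : α → ℝ) {Y S : Finset α} (h : Disjoint Y S) :
    w z (Y ∪ S) = w z Y * w z S := by
  unfold w
  exact prod_union h

theorem sum_powerset {α : Type} (z : α → ℝ) (L : Finset α) :
    ∑ X ∈ L.powerset, w z X = ∏ p ∈ L, (1 + z p) := by
  rw [prod_one_add]
  rfl

theorem third {α ι : Type} [Fintype α] [Fintype ι] (T : Finset α) (A : α → ι) (z : α → ℝ) :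
    ∑ S ∈ T.powerset.filter (fun S => S.Nonempty ∧ cst A S), w z S = XS T A z := by
  have h1 : T.powerset.filter (fun S => S.Nonempty ∧ cst A S) =
      (univ : Finset ι).biUnion (fun i => (T.filter (fun p => A p = i)).powerset.erase ∅) := by
    ext S
    simp only [mem_filter, mem_powerset, mem_biUnion, mem_univ, true_and, mem_erase]
    constructor
    · rintro ⟨hS, ⟨p, hp⟩, hc⟩
      refine ⟨A p, ?_, ?_⟩
      · rintro rfl
        exact notMem_empty p hp
      · intro q hq
        rw [mem_filter]
        exact ⟨hS hq, hc q hq p hp⟩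
    · rintro ⟨i, hne, hS⟩
      refine ⟨fun q hq => (mem_filter.1 (hS hq)).1, nonempty_iff_ne_empty.2 hne, ?_⟩
      intro p hp q hq
      rw [(mem_filter.1 (hS hp)).2, (mem_filter.1 (hS hq)).2]
  rw [h1, sum_biUnion]
  · unfold XS
    refine sum_congr rfl fun i _ => ?_
    rw [← sum_powerset, sum_erase_eq_sub (empty_mem_powerset _)]
    congr 1
  · intro i _ j _ hij
    rw [Function.onFun, Finset.disjoint_left]
    intro S hS hS'
    rw [mem_erase, mem_powerset] at hS hS'
    obtain ⟨p, hp⟩ := nonempty_iff_ne_empty.2 hS.1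
    exact hij ((mem_filter.1 (hS.2 hp)).2.symm.trans (mem_filter.1 (hS'.2 hp)).2)

theorem row : S_Row := by
  intro α ι _ _ L T P hLT hPL A z
  have hsplit : (L ∪ T).powerset.filter (fun X => X ⊆ L ∨ (cst A (X ∩ T) ∧ X ∩ L ⊆ P)) =
      L.powerset ∪ (L ∪ T).powerset.filter
        (fun X => (X ∩ T).Nonempty ∧ (cst A (X ∩ T) ∧ X ∩ L ⊆ P)) := by
    ext X
    simp only [mem_filter, mem_powerset, mem_union]
    constructor
    · rintro ⟨h1, h2⟩
      by_cases h3 : X ⊆ L
      · exact Or.inl h3
      · right
        rcases h2 with h2 | h2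
        · exact absurd h2 h3
        · refine ⟨h1, ?_, h2⟩
          rw [not_subset] at h3
          obtain ⟨p, hp, hpL⟩ := h3
          refine ⟨p, mem_inter.2 ⟨hp, ?_⟩⟩
          rcases mem_union.1 (h1 hp) with h | h
          · exact absurd h hpL
          · exact h
    · rintro (h | ⟨h1, h2, h3⟩)
      · exact ⟨h.trans subset_union_left, Or.inl h⟩
      · exact ⟨h1, Or.inr h3⟩
  rw [hsplit, sum_union, sum_powerset]
  · congr 1
    rw [← sum_powerset z P, ← third, sum_mul_sum, ← sum_product']
    refine sum_nbij' (fun X => (X ∩ L, X ∩ T)) (fun q => q.1 ∪ q.2) ?_ ?_ ?_ ?_ ?_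
    · intro X hX
      simp only [mem_filter, mem_powerset] at hX
      simp only [mem_product, mem_filter, mem_powerset]
      exact ⟨hX.2.2.2, inter_subset_right, hX.2.1, hX.2.2.1⟩
    · rintro ⟨Y, S⟩ hq
      simp only [mem_product, mem_filter, mem_powerset] at hq
      obtain ⟨hY, hS, hSn, hSc⟩ := hq
      have e1 : (Y ∪ S) ∩ T = S := by
        rw [union_inter_distrib_right, inter_eq_left.2 hS,
          Finset.disjoint_iff_inter_eq_empty.1 (Disjoint.mono_left (hY.trans hPL) hLT)]
        exact empty_union S
      have e2 : (Y ∪ S) ∩ L = Y := by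
        rw [union_inter_distrib_right, inter_eq_left.2 (hY.trans hPL),
          Finset.disjoint_iff_inter_eq_empty.1 (Disjoint.mono_left hS hLT.symm)]
        exact union_empty Y
      simp only [mem_filter, mem_powerset]
      rw [e1, e2]
      exact ⟨union_subset_union (hY.trans hPL) hS, hSn, hSc, hY⟩
    · intro X hX
      simp only [mem_filter, mem_powerset] at hX
      show X ∩ L ∪ X ∩ T = X
      rw [← inter_union_distrib_left]
      exact inter_eq_left.2 hX.1
    · rintro ⟨Y, S⟩ hq
      simp only [mem_product, mem_filter, mem_powerset] at hq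
      obtain ⟨hY, hS, hSn, hSc⟩ := hq
      have e1 : (Y ∪ S) ∩ T = S := by
        rw [union_inter_distrib_right, inter_eq_left.2 hS,
          Finset.disjoint_iff_inter_eq_empty.1 (Disjoint.mono_left (hY.trans hPL) hLT)]
        exact empty_union S
      have e2 : (Y ∪ S) ∩ L = Y := by
        rw [union_inter_distrib_right, inter_eq_left.2 (hY.trans hPL),
          Finset.disjoint_iff_inter_eq_empty.1 (Disjoint.mono_left hS hLT.symm)]
        exact union_empty Y
      show ((Y ∪ S) ∩ L, (Y ∪ S) ∩ T) = (Y, S)
      rw [e1, e2]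
    · intro X hX
      simp only [mem_filter, mem_powerset] at hX
      show w z X = w z (X ∩ L) * w z (X ∩ T)
      rw [← w_union]
      · congr 1
        rw [← inter_union_distrib_left]
        exact (inter_eq_left.2 hX.1).symm
      · exact Disjoint.mono inter_subset_right inter_subset_right hLT
  · rw [Finset.disjoint_left]
    intro X hX hX'
    rw [mem_powerset] at hX
    simp only [mem_filter, mem_powerset] at hX'
    obtain ⟨p, hp⟩ := hX'.2.1
    rw [mem_inter] at hp
    exact (Finset.disjoint_left.1 hLT) (hX hp.1) hp.2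

end Pool.Agent.W693.SC
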